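import Pool.Agent.Helper480_Flip.RedPoly

/-!
# Finding a shortest sequence of flips that convexifies a polygon is NP-hard
-/

/-- The decision problem SHORTEST (given a simple polygon with rational vertex coordinates and a
number `k`, is there a sequence of at most `k` flips which convexifies the polygon?) is NP-hard
under polynomial-time many-one reductions. -/
theorem Pool.Agent.Results.MP_bfe50c_lc.ShortestNPHard.result :
    Pool.Agent.NPC.NPHardP Pool.Agent.Helper480_Flip.Shortest :=
  Pool.Agent.NPC.Flip480.nphard_shortest
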